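import Mathlib

set_option autoImplicit false
set_option linter.unusedSectionVars false

/-!
# Zariski closed sets of positive measure in a group (abstract form)
-/

open MvPolynomial

namespace Pool.Agent.J6H31.ST

variable {G : Type} [Group G] {F : Type} [Field F] {n m : ℕ}

/-- the matrix entries of `ρ g` and `η g` -/
noncomputable def evg (ρ : G →* GL (Fin n) F) (η : G →* GL (Fin m) F) (g : G) :
    (Fin n × Fin n) ⊕ (Fin m × Fin m) → F :=
  Sum.elim (fun ij => (ρ g : Matrix (Fin n) (Fin n) F) ij.1 ij.2)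
    (fun ij => (η g : Matrix (Fin m) (Fin m) F) ij.1 ij.2)

/-- substitution: right multiplication by `y` -/
noncomputable def R (ρ : G →* GL (Fin n) F) (η : G →* GL (Fin m) F) (y : G) :
    MvPolynomial ((Fin n × Fin n) ⊕ (Fin m × Fin m)) F →ₐ[F]
      MvPolynomial ((Fin n × Fin n) ⊕ (Fin m × Fin m)) F :=
  bind₁ (Sum.elim
    (fun ij => ∑ k, X (Sum.inl (ij.1, k)) * C ((ρ y : Matrix (Fin n) (Fin n) F) k ij.2))
    (fun ij => ∑ k, X (Sum.inr (ij.1, k)) * C ((η y : Matrix (Fin m) (Fin m) F) k ij.2)))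

/-- substitution: left multiplication by `y` -/
noncomputable def L (ρ : G →* GL (Fin n) F) (η : G →* GL (Fin m) F) (y : G) :
    MvPolynomial ((Fin n × Fin n) ⊕ (Fin m × Fin m)) F →ₐ[F]
      MvPolynomial ((Fin n × Fin n) ⊕ (Fin m × Fin m)) F :=
  bind₁ (Sum.elim
    (fun ij => ∑ k, C ((ρ y : Matrix (Fin n) (Fin n) F) ij.1 k) * X (Sum.inl (k, ij.2)))
    (fun ij => ∑ k, C ((η y : Matrix (Fin m) (Fin m) F) ij.1 k) * X (Sum.inr (k, ij.2))))

theorem eval_R (ρ : G →* GL (Fin n) F) (η : G →* GL (Fin m) F) (y g : G)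
    (p : MvPolynomial ((Fin n × Fin n) ⊕ (Fin m × Fin m)) F) :
    eval (evg ρ η g) (R ρ η y p) = eval (evg ρ η (g * y)) p := by
  unfold R
  have h1 : eval (evg ρ η g) (bind₁ (Sum.elim
      (fun ij : Fin n × Fin n => ∑ k, X (Sum.inl (ij.1, k)) *
        C ((ρ y : Matrix (Fin n) (Fin n) F) k ij.2))
      (fun ij : Fin m × Fin m => ∑ k, X (Sum.inr (ij.1, k)) *
        C ((η y : Matrix (Fin m) (Fin m) F) k ij.2))) p) = _ :=
    eval₂Hom_bind₁ (RingHom.id F) (evg ρ η g) _ p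
  rw [h1]
  have h2 : (fun i => eval₂Hom (RingHom.id F) (evg ρ η g) ((Sum.elim
      (fun ij : Fin n × Fin n => ∑ k, X (Sum.inl (ij.1, k)) *
        C ((ρ y : Matrix (Fin n) (Fin n) F) k ij.2))
      (fun ij : Fin m × Fin m => ∑ k, X (Sum.inr (ij.1, k)) *
        C ((η y : Matrix (Fin m) (Fin m) F) k ij.2))) i)) = evg ρ η (g * y) := by
    funext i
    rcases i with ⟨i, j⟩ | ⟨i, j⟩
    · simp only [Sum.elim_inl, map_sum, map_mul, coe_eval₂Hom, eval₂_X, eval₂_C, RingHom.id_apply,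
        evg, Units.val_mul, Matrix.mul_apply]
    · simp only [Sum.elim_inr, map_sum, map_mul, coe_eval₂Hom, eval₂_X, eval₂_C, RingHom.id_apply,
        evg, Units.val_mul, Matrix.mul_apply]
  rw [h2]
  rfl

theorem eval_L (ρ : G →* GL (Fin n) F) (η : G →* GL (Fin m) F) (y g : G)
    (p : MvPolynomial ((Fin n × Fin n) ⊕ (Fin m × Fin m)) F) :
    eval (evg ρ η g) (L ρ η y p) = eval (evg ρ η (y * g)) p := by
  unfold L
  have h1 : eval (evg ρ η g) (bind₁ (Sum.elim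
      (fun ij : Fin n × Fin n => ∑ k, C ((ρ y : Matrix (Fin n) (Fin n) F) ij.1 k) *
        X (Sum.inl (k, ij.2)))
      (fun ij : Fin m × Fin m => ∑ k, C ((η y : Matrix (Fin m) (Fin m) F) ij.1 k) *
        X (Sum.inr (k, ij.2)))) p) = _ :=
    eval₂Hom_bind₁ (RingHom.id F) (evg ρ η g) _ p
  rw [h1]
  have h2 : (fun i => eval₂Hom (RingHom.id F) (evg ρ η g) ((Sum.elim
      (fun ij : Fin n × Fin n => ∑ k, C ((ρ y : Matrix (Fin n) (Fin n) F) ij.1 k) *
        X (Sum.inl (k, ij.2)))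
      (fun ij : Fin m × Fin m => ∑ k, C ((η y : Matrix (Fin m) (Fin m) F) ij.1 k) *
        X (Sum.inr (k, ij.2)))) i)) = evg ρ η (y * g) := by
    funext i
    rcases i with ⟨i, j⟩ | ⟨i, j⟩
    · simp only [Sum.elim_inl, map_sum, map_mul, coe_eval₂Hom, eval₂_X, eval₂_C, RingHom.id_apply,
        evg, Units.val_mul, Matrix.mul_apply]
    · simp only [Sum.elim_inr, map_sum, map_mul, coe_eval₂Hom, eval₂_X, eval₂_C, RingHom.id_apply,
        evg, Units.val_mul, Matrix.mul_apply]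
  rw [h2]
  rfl

/-- the zero set of an ideal, in inverses -/
def Z (ρ : G →* GL (Fin n) F) (η : G →* GL (Fin m) F)
    (I : Ideal (MvPolynomial ((Fin n × Fin n) ⊕ (Fin m × Fin m)) F)) : Set G :=
  {g | ∀ p ∈ I, eval (evg ρ η g⁻¹) p = 0}

theorem mem_Z_iff (ρ : G →* GL (Fin n) F) (η : G →* GL (Fin m) F)
    (I : Ideal (MvPolynomial ((Fin n × Fin n) ⊕ (Fin m × Fin m)) F)) (g : G) :
    g ∈ Z ρ η I ↔ I ≤ RingHom.ker (eval (evg ρ η g⁻¹)) := by
  constructor
  · intro h p hp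
    exact (RingHom.mem_ker).2 (h p hp)
  · intro h p hp
    exact (RingHom.mem_ker).1 (h hp)

variable [TopologicalSpace G] [IsTopologicalGroup G] [TopologicalSpace F] [IsTopologicalRing F]
  [T1Space F]

theorem evg_cont (ρ : G →* GL (Fin n) F) (hρ : Continuous ρ) (η : G →* GL (Fin m) F)
    (hη : Continuous η) : Continuous (evg ρ η) := by
  refine continuous_pi fun s => ?_
  rcases s with ⟨i, j⟩ | ⟨i, j⟩
  · exact (Units.continuous_val.comp hρ).matrix_elem i j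
  · exact (Units.continuous_val.comp hη).matrix_elem i j

theorem Z_closed (ρ : G →* GL (Fin n) F) (hρ : Continuous ρ) (η : G →* GL (Fin m) F)
    (hη : Continuous η) (I : Ideal (MvPolynomial ((Fin n × Fin n) ⊕ (Fin m × Fin m)) F)) :
    IsClosed (Z ρ η I) := by
  have h1 : Z ρ η I = ⋂ p ∈ I, {g | eval (evg ρ η g⁻¹) p = 0} := by
    ext g
    simp [Z]
  rw [h1]
  refine isClosed_biInter fun p _ => ?_
  have h2 : Continuous fun g : G => eval (evg ρ η g⁻¹) p :=
    (MvPolynomial.continuous_eval p).comp ((evg_cont ρ hρ η hη).comp continuous_inv)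
  exact isClosed_singleton.preimage h2

theorem zar (ρ : G →* GL (Fin n) F) (hρ : Continuous ρ) (η : G →* GL (Fin m) F)
    (hη : Continuous η)
    (hconn : ∀ H : Subgroup G, IsOpen (H : Set G) →
      ∀ f : MvPolynomial ((Fin n × Fin n) ⊕ (Fin m × Fin m)) F,
        (∀ h ∈ H, eval (evg ρ η h) f = 0) → ∀ g, eval (evg ρ η g) f = 0)
    (pos : Set G → Prop) (h1 : ∀ X Y : Set G, X ⊆ Y → pos X → pos Y)
    (h2 : ∀ (ι : Type) (s : Finset ι) (X : ι → Set G), pos (⋃ i ∈ s, X i) → ∃ i ∈ s, pos (X i))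
    (h3 : ∀ X : Set G, IsClosed X → pos X → ∀ H : Subgroup G,
      (∀ y, y ∉ H → ¬ pos {g | g ∈ X ∧ y * g ∈ X}) → H.FiniteIndex)
    (h4 : ∀ (X : Set G) (y : G), pos X → pos {g | y * g ∈ X})
    (f : MvPolynomial ((Fin n × Fin n) ⊕ (Fin m × Fin m)) F)
    (hf : pos {g | eval (evg ρ η g⁻¹) f = 0}) : ∀ g, eval (evg ρ η g) f = 0 := by
  -- the maximal ideal
  have hne : ({I | f ∈ I ∧ pos (Z ρ η I)} :
      Set (Ideal (MvPolynomial ((Fin n × Fin n) ⊕ (Fin m × Fin m)) F))).Nonempty := by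
    refine ⟨Ideal.span {f}, Ideal.mem_span_singleton_self f, h1 _ _ ?_ hf⟩
    intro g hg
    rw [mem_Z_iff, Ideal.span_le]
    intro p hp
    rw [Set.mem_singleton_iff] at hp
    subst hp
    exact (RingHom.mem_ker).2 hg
  obtain ⟨I, ⟨hfI, hpI⟩, hmax⟩ := (wellFounded_gt (α :=
    Ideal (MvPolynomial ((Fin n × Fin n) ⊕ (Fin m × Fin m)) F))).has_min _ hne
  -- claim A
  have hA : ∀ y : G, pos {g | g ∈ Z ρ η I ∧ y * g ∈ Z ρ η I} → ∀ g ∈ Z ρ η I, y * g ∈ Z ρ η I := by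
    intro y hy
    have hJ : ¬ (I < I ⊔ Ideal.span ((R ρ η y⁻¹) '' (I : Set _))) := by
      refine hmax _ ⟨Ideal.mem_sup_left hfI, h1 _ _ ?_ hy⟩
      rintro g ⟨hg1, hg2⟩
      rw [mem_Z_iff, sup_le_iff, Ideal.span_le]
      refine ⟨(mem_Z_iff ρ η I g).1 hg1, ?_⟩
      rintro q ⟨p, hp, rfl⟩
      refine (RingHom.mem_ker).2 ?_
      rw [eval_R, ← mul_inv_rev]
      exact hg2 p hp
    have hle : Ideal.span ((R ρ η y⁻¹) '' (I : Set _)) ≤ I := by
      by_contra hcon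
      exact hJ (lt_of_le_not_ge le_sup_left fun h => hcon (le_sup_right.trans h))
    intro g hg p hp
    have h5 := hg _ (hle (Ideal.subset_span ⟨p, hp, rfl⟩))
    rwa [eval_R, ← mul_inv_rev] at h5
  -- the stabilizer
  let H : Subgroup G :=
    { carrier := {y | ∀ g, g ∈ Z ρ η I ↔ y * g ∈ Z ρ η I}
      one_mem' := fun g => by rw [one_mul]
      mul_mem' := fun {a b} ha hb g => by rw [mul_assoc]; exact (hb g).trans (ha (b * g))
      inv_mem' := fun {a} ha g => by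
        have := ha (a⁻¹ * g)
        rw [mul_inv_cancel_left] at this
        exact this.symm }
  have hH : ∀ y, y ∈ H ↔ ∀ g, g ∈ Z ρ η I ↔ y * g ∈ Z ρ η I := fun y => Iff.rfl
  have hfin : H.FiniteIndex := by
    refine h3 _ (Z_closed ρ hρ η hη I) hpI H fun y hy hpy => hy ?_
    have hpy' : pos {g | g ∈ Z ρ η I ∧ y⁻¹ * g ∈ Z ρ η I} := by
      refine h1 _ _ ?_ (h4 _ y⁻¹ hpy)
      rintro g ⟨hg1, hg2⟩
      rw [mul_inv_cancel_left] at hg2
      exact ⟨hg2, hg1⟩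
    rw [hH]
    intro g
    refine ⟨hA y hpy g, fun hg => ?_⟩
    have := hA y⁻¹ hpy' _ hg
    rwa [inv_mul_cancel_left] at this
  have hcl : IsClosed (H : Set G) := by
    have h5 : (H : Set G) = (⋂ g ∈ Z ρ η I, {y | y * g ∈ Z ρ η I}) ∩
        ⋂ g ∈ Z ρ η I, {y | y⁻¹ * g ∈ Z ρ η I} := by
      ext y
      simp only [Set.mem_inter_iff, Set.mem_iInter, Set.mem_ofPred_eq, SetLike.mem_coe]
      constructor
      · intro hy
        exact ⟨fun g hg => (hy g).1 hg, fun g hg => ((inv_mem hy) g).1 hg⟩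
      · rintro ⟨ha, hb⟩ g
        refine ⟨ha g, fun hg => ?_⟩
        have := hb _ hg
        rwa [inv_mul_cancel_left] at this
    rw [h5]
    have hZ := Z_closed ρ hρ η hη I
    refine IsClosed.inter (isClosed_biInter fun g _ => ?_) (isClosed_biInter fun g _ => ?_)
    · exact hZ.preimage (continuous_mul_const g)
    · exact hZ.preimage ((continuous_mul_const g).comp continuous_inv)
  have hop : IsOpen (H : Set G) := H.isOpen_of_isClosed_of_finiteIndex hcl
  have hZne : (Z ρ η I).Nonempty := by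
    by_contra hcon
    rw [Set.not_nonempty_iff_eq_empty] at hcon
    have h5 : pos (⋃ i ∈ (∅ : Finset ℕ), (fun _ : ℕ => (∅ : Set G)) i) := by
      refine h1 _ _ ?_ hpI
      rw [hcon]
      exact Set.empty_subset _
    obtain ⟨i, hi, -⟩ := h2 ℕ ∅ _ h5
    simp at hi
  obtain ⟨y, hy⟩ := hZne
  have h6 : ∀ g, eval (evg ρ η g) (L ρ η y⁻¹ f) = 0 := by
    refine hconn H hop _ fun x hx => ?_
    rw [eval_L]
    have h7 : x⁻¹ * y ∈ Z ρ η I := ((hH _).1 (inv_mem hx) y).1 hy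
    have h8 := h7 f hfI
    rwa [mul_inv_rev, inv_inv] at h8
  intro g
  have h9 := h6 (y * g)
  rwa [eval_L, inv_mul_cancel_left] at h9

end Pool.Agent.J6H31.ST
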