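import Pool.Agent.J6H29.ST.StmZ
import Pool.Agent.J6H31.ST.ZarAbs

set_option autoImplicit false

/-!
# ST-ZAR
-/

namespace Pool.Agent.J6H31.ST

theorem main : Pool.Agent.J6H29.ST.S_Zar := by
  intro K _ _ ℓ _ n m ρ hρ η hη hconn pos h1 h2 h3 h4 f hf
  exact zar ρ hρ η hη hconn pos h1 h2 h3 h4 f hf

end Pool.Agent.J6H31.ST
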