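import Pool.Agent.J6H31.ST.ZarAbs

set_option autoImplicit false
set_option linter.unusedSectionVars false

/-!
# Zariski closed sets of positive measure in a coset of an open normal subgroup (abstract form)
-/

open MvPolynomial

namespace Pool.Agent.J6H31.ST

variable {G : Type} [Group G] {F : Type} [Field F] {n m : ℕ}

variable [TopologicalSpace G] [IsTopologicalGroup G] [TopologicalSpace F] [IsTopologicalRing F]
  [T1Space F]

theorem zarC (ρ : G →* GL (Fin n) F) (hρ : Continuous ρ) (η : G →* GL (Fin m) F)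
    (hη : Continuous η) (G₀ : Subgroup G) (hG₀ : G₀.Normal) (hG₀' : IsOpen (G₀ : Set G))
    (hconn : ∀ H : Subgroup G, IsOpen (H : Set G) →
      ∀ f : MvPolynomial ((Fin n × Fin n) ⊕ (Fin m × Fin m)) F,
        (∀ h ∈ H, h ∈ G₀ → eval (evg ρ η h) f = 0) → ∀ g ∈ G₀, eval (evg ρ η g) f = 0)
    (pos : Set G → Prop) (h1 : ∀ X Y : Set G, X ⊆ Y → pos X → pos Y)
    (h2 : ∀ (ι : Type) (s : Finset ι) (X : ι → Set G), pos (⋃ i ∈ s, X i) → ∃ i ∈ s, pos (X i))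
    (h3 : ∀ X : Set G, IsClosed X → pos X → ∀ H : Subgroup G,
      (∀ y, y ∉ H → ¬ pos {g | g ∈ X ∧ y * g ∈ X}) → H.FiniteIndex)
    (h4 : ∀ (X : Set G) (y : G), pos X → pos {g | y * g ∈ X})
    (f : MvPolynomial ((Fin n × Fin n) ⊕ (Fin m × Fin m)) F) (g₁ : G)
    (hf : pos {g | g₁⁻¹ * g ∈ G₀ ∧ eval (evg ρ η g⁻¹) f = 0}) :
    ∀ g, g₁⁻¹ * g ∈ G₀ → eval (evg ρ η g⁻¹) f = 0 := by
  -- the coset and the closed sets
  let Cs : Set G := {g | g₁⁻¹ * g ∈ G₀}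
  have hCs : IsClosed Cs :=
    (G₀.isClosed_of_isOpen hG₀').preimage (continuous_const_mul g₁⁻¹)
  have hconj : ∀ y, y ∈ G₀ ↔ g₁⁻¹ * y * g₁ ∈ G₀ := by
    intro y
    constructor
    · intro hy
      have := hG₀.conj_mem y hy g₁⁻¹
      rwa [inv_inv] at this
    · intro hy
      have := hG₀.conj_mem _ hy g₁
      have h5 : g₁ * (g₁⁻¹ * y * g₁) * g₁⁻¹ = y := by group
      rwa [h5] at this
  have hCy : ∀ y ∈ G₀, ∀ g ∈ Cs, y * g ∈ Cs := by
    intro y hy g hg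
    show g₁⁻¹ * (y * g) ∈ G₀
    have h5 : g₁⁻¹ * (y * g) = (g₁⁻¹ * y * g₁) * (g₁⁻¹ * g) := by group
    rw [h5]
    exact mul_mem ((hconj y).1 hy) hg
  have hCy' : ∀ y g, g ∈ Cs → y * g ∈ Cs → y ∈ G₀ := by
    intro y g hg hyg
    rw [hconj]
    have h5 : g₁⁻¹ * y * g₁ = (g₁⁻¹ * (y * g)) * (g₁⁻¹ * g)⁻¹ := by group
    rw [h5]
    exact mul_mem hyg (inv_mem hg)
  have hposne : ∀ X : Set G, pos X → X.Nonempty := by
    intro X hX
    by_contra hcon
    rw [Set.not_nonempty_iff_eq_empty] at hcon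
    have h5 : pos (⋃ i ∈ (∅ : Finset ℕ), (fun _ : ℕ => (∅ : Set G)) i) := by
      refine h1 _ _ ?_ hX
      rw [hcon]
      exact Set.empty_subset _
    obtain ⟨i, hi, -⟩ := h2 ℕ ∅ _ h5
    simp at hi
  -- the maximal ideal
  have hne : ({I | f ∈ I ∧ pos (Cs ∩ Z ρ η I)} :
      Set (Ideal (MvPolynomial ((Fin n × Fin n) ⊕ (Fin m × Fin m)) F))).Nonempty := by
    refine ⟨Ideal.span {f}, Ideal.mem_span_singleton_self f, h1 _ _ ?_ hf⟩
    intro g hg
    refine ⟨hg.1, ?_⟩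
    rw [mem_Z_iff, Ideal.span_le]
    intro p hp
    rw [Set.mem_singleton_iff] at hp
    subst hp
    exact (RingHom.mem_ker).2 hg.2
  obtain ⟨I, ⟨hfI, hpI⟩, hmax⟩ := (wellFounded_gt (α :=
    Ideal (MvPolynomial ((Fin n × Fin n) ⊕ (Fin m × Fin m)) F))).has_min _ hne
  let W : Set G := Cs ∩ Z ρ η I
  have hWcl : IsClosed W := hCs.inter (Z_closed ρ hρ η hη I)
  -- claim A
  have hA : ∀ y ∈ G₀, pos {g | g ∈ W ∧ y * g ∈ W} → ∀ g ∈ W, y * g ∈ W := by
    intro y hyG hy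
    have hJ : ¬ (I < I ⊔ Ideal.span ((R ρ η y⁻¹) '' (I : Set _))) := by
      refine hmax _ ⟨Ideal.mem_sup_left hfI, h1 _ _ ?_ hy⟩
      rintro g ⟨hg1, hg2⟩
      refine ⟨hg1.1, ?_⟩
      rw [mem_Z_iff, sup_le_iff, Ideal.span_le]
      refine ⟨(mem_Z_iff ρ η I g).1 hg1.2, ?_⟩
      rintro q ⟨p, hp, rfl⟩
      refine (RingHom.mem_ker).2 ?_
      rw [eval_R, ← mul_inv_rev]
      exact hg2.2 p hp
    have hle : Ideal.span ((R ρ η y⁻¹) '' (I : Set _)) ≤ I := by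
      by_contra hcon
      exact hJ (lt_of_le_not_ge le_sup_left fun h => hcon (le_sup_right.trans h))
    intro g hg
    refine ⟨hCy y hyG g hg.1, fun p hp => ?_⟩
    have h5 := hg.2 _ (hle (Ideal.subset_span ⟨p, hp, rfl⟩))
    rwa [eval_R, ← mul_inv_rev] at h5
  -- the stabilizer
  let H : Subgroup G :=
    { carrier := {y | ∀ g, g ∈ W ↔ y * g ∈ W}
      one_mem' := fun g => by rw [one_mul]
      mul_mem' := fun {a b} ha hb g => by rw [mul_assoc]; exact (hb g).trans (ha (b * g))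
      inv_mem' := fun {a} ha g => by
        have := ha (a⁻¹ * g)
        rw [mul_inv_cancel_left] at this
        exact this.symm }
  have hH : ∀ y, y ∈ H ↔ ∀ g, g ∈ W ↔ y * g ∈ W := fun y => Iff.rfl
  have hfin : H.FiniteIndex := by
    refine h3 _ hWcl hpI H fun y hy hpy => hy ?_
    obtain ⟨g₂, hg₂, hg₂'⟩ := hposne _ hpy
    have hyG : y ∈ G₀ := hCy' y g₂ hg₂.1 hg₂'.1
    have hpy' : pos {g | g ∈ W ∧ y⁻¹ * g ∈ W} := by
      refine h1 _ _ ?_ (h4 _ y⁻¹ hpy)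
      rintro g ⟨hg1, hg2⟩
      rw [mul_inv_cancel_left] at hg2
      exact ⟨hg2, hg1⟩
    rw [hH]
    intro g
    refine ⟨hA y hyG hpy g, fun hg => ?_⟩
    have := hA y⁻¹ (inv_mem hyG) hpy' _ hg
    rwa [inv_mul_cancel_left] at this
  have hcl : IsClosed (H : Set G) := by
    have h5 : (H : Set G) = (⋂ g ∈ W, {y | y * g ∈ W}) ∩ ⋂ g ∈ W, {y | y⁻¹ * g ∈ W} := by
      ext y
      simp only [Set.mem_inter_iff, Set.mem_iInter, Set.mem_ofPred_eq, SetLike.mem_coe]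
      constructor
      · intro hy
        exact ⟨fun g hg => (hy g).1 hg, fun g hg => ((inv_mem hy) g).1 hg⟩
      · rintro ⟨ha, hb⟩ g
        refine ⟨ha g, fun hg => ?_⟩
        have := hb _ hg
        rwa [inv_mul_cancel_left] at this
    rw [h5]
    refine IsClosed.inter (isClosed_biInter fun g _ => ?_) (isClosed_biInter fun g _ => ?_)
    · exact hWcl.preimage (continuous_mul_const g)
    · exact hWcl.preimage ((continuous_mul_const g).comp continuous_inv)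
  have hop : IsOpen (H : Set G) := H.isOpen_of_isClosed_of_finiteIndex hcl
  obtain ⟨y, hy⟩ := hposne _ hpI
  have h6 : ∀ g ∈ G₀, eval (evg ρ η g) (L ρ η y⁻¹ f) = 0 := by
    refine hconn H hop _ fun x hx _ => ?_
    rw [eval_L]
    have h7 : x⁻¹ * y ∈ W := ((hH _).1 (inv_mem hx) y).1 hy
    have h8 := h7.2 f hfI
    rwa [mul_inv_rev, inv_inv] at h8
  intro g hg
  have h10 : y * g⁻¹ ∈ G₀ := by
    refine hCy' _ g hg ?_
    rw [inv_mul_cancel_right]
    exact hy.1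
  have h9 := h6 (y * g⁻¹) h10
  rwa [eval_L, inv_mul_cancel_left] at h9

end Pool.Agent.J6H31.ST
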